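import Pool.Agent.MP_a88b1d_nt.H42.Spec

/-! Row TA: the basic properties of an abstract trivalent tree. -/

open Pool.Agent.MP_a88b1d_nt.H42

namespace Pool.Agent.MP_a88b1d_nt.H8

variable {V : Type} [Monoid V] {d : V → V → ℕ} {s : Fin 3 → V}

theorem t_congr (h : IsTree d s) (x x' u : V) (h0 : d x x' = 0) : d x u = d x' u := by
  have h1 := h.tri x x' u
  have h2 := h.tri x' x u
  have h3 := h.comm x x'
  omega

theorem t_adjx (h : IsTree d s) (x : V) (k : Fin 3) : d x (x * s k) = 1 := by
  have h1 := h.inv x 1 (s k)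
  rw [mul_one] at h1
  rw [h1, h.adj]

theorem t_step (h : IsTree d s) (x y u : V) (h1 : d x y = 1) :
    d x u + 1 = d y u ∨ d y u + 1 = d x u := by
  have a1 := h.tri x y u
  have a2 := h.tri y x u
  have a3 := h.comm x y
  have a4 := h.par x y u
  omega

theorem t_nbr (h : IsTree d s) (x y : V) (h1 : d x y = 1) : ∃ k, d (x * s k) y = 0 := by
  obtain ⟨k, hk, -⟩ := h.uniq x y (by omega)
  exact ⟨k, by omega⟩

theorem t_nbd (h : IsTree d s) (x : V) (k k' : Fin 3) (h0 : d (x * s k) (x * s k') = 0) :
    k = k' := by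
  have h1 := t_adjx h x k'
  have h2 := h.self (x * s k')
  exact (h.uniq x (x * s k') (by omega)).unique (by omega) (by omega)

theorem t_key (h : IsTree d s) (x y u u' : V) (hxy : d x y = 1) (huu : d u u' = 1)
    (h1 : d x u' = d x u + 1) (h2 : d y u = d y u' + 1) : d x u = 0 ∧ d y u' = 0 := by
  have s1 := t_step h x y u hxy
  have s2 := t_step h x y u' hxy
  suffices hx : d x u = 0 by omega
  by_contra hne
  have c1 := h.comm x u
  have c2 := h.comm y u
  have c3 := h.comm x u'
  have c4 := h.comm y u'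
  obtain ⟨k, hk, -⟩ := h.uniq u x (by omega)
  obtain ⟨k', hk'⟩ := t_nbr h u u' huu
  have e1 := t_congr h _ _ x hk'
  have e2 := t_congr h _ _ y hk'
  have s3 := t_step h u (u * s k) y (t_adjx h u k)
  have t1 := h.tri (u * s k) x y
  have hkk : k = k' := (h.uniq u y (by omega)).unique (by omega) (by omega)
  subst hkk
  omega

theorem t_two (h : IsTree d s) (x y u u' : V) (hxy : d x y = 1) (huu : d u u' = 1) :
    DD d x y u u' = (if d x u = 0 ∧ d y u' = 0 then 2 else 0) -
      (if d x u' = 0 ∧ d y u = 0 then 2 else 0) := by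
  have k1 := t_key h x y u u' hxy huu
  have k2 := t_key h y x u u' (by rw [h.comm]; exact hxy) huu
  have s1 := t_step h x y u hxy
  have s2 := t_step h x y u' hxy
  have s3 := t_step h u u' x huu
  have s4 := t_step h u u' y huu
  have c1 := h.comm x u
  have c2 := h.comm y u
  have c3 := h.comm x u'
  have c4 := h.comm y u'
  unfold DD
  split_ifs <;> omega

theorem t_far (h : IsTree d s) (x y : V) (hxy : d x y = 1) (u' : V) :
    ∀ (n : ℕ) (u : V), d u u' = n → DD d x y u u' ≠ 0 → d u x ≤ n := by
  intro n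
  induction n with
  | zero =>
    intro u h0 hne
    exfalso
    have e1 := t_congr h _ _ x h0
    have e2 := t_congr h _ _ y h0
    have c1 := h.comm x u
    have c2 := h.comm y u
    have c3 := h.comm x u'
    have c4 := h.comm y u'
    unfold DD at hne
    omega
  | succ n ih =>
    intro u hn hne
    obtain ⟨k, hk, -⟩ := h.uniq u u' (by omega)
    have a1 := t_adjx h u k
    have i1 := ih (u * s k) (by omega)
    have w := t_two h x y u (u * s k) hxy a1
    have t1 := h.tri u (u * s k) x
    have c1 := h.comm x u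
    have c2 := h.comm x (u * s k)
    unfold DD at hne i1 w
    split_ifs at w <;> omega

theorem t_conn (h : IsTree d s) (P : V → Prop) (x : V) (h0 : ∀ y, d x y = 0 → P y)
    (h1 : ∀ y y', d y y' = 1 → d x y + 1 = d x y' → P y → P y') :
    ∀ (n : ℕ) (y : V), d x y = n → P y := by
  intro n
  induction n with
  | zero => exact h0
  | succ n ih =>
    intro y hy
    have c1 := h.comm x y
    obtain ⟨k, hk, -⟩ := h.uniq y x (by omega)
    have c2 := h.comm x (y * s k)
    exact h1 (y * s k) y (by rw [h.comm]; exact t_adjx h y k) (by omega)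
      (ih _ (by omega))

theorem t_star (h : IsTree d s) (x u : V) :
    ∑ k, (d (x * s k) u : ℤ) = 3 * d x u + if d x u = 0 then 3 else 1 := by
  have s0 := t_step h x _ u (t_adjx h x 0)
  have s1 := t_step h x _ u (t_adjx h x 1)
  have s2 := t_step h x _ u (t_adjx h x 2)
  rw [Fin.sum_univ_three]
  split_ifs with h0
  · omega
  · obtain ⟨k, hk, hu⟩ := h.uniq x u h0
    have u0 : d (x * s 0) u + 1 = d x u → (0 : ℕ) = k.1 := fun e => congrArg Fin.val (hu 0 e)
    have u1 : d (x * s 1) u + 1 = d x u → (1 : ℕ) = k.1 := fun e => congrArg Fin.val (hu 1 e)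
    have u2 : d (x * s 2) u + 1 = d x u → (2 : ℕ) = k.1 := fun e => congrArg Fin.val (hu 2 e)
    have hk3 : k = 0 ∨ k = 1 ∨ k = 2 := (by decide : ∀ k : Fin 3, k = 0 ∨ k = 1 ∨ k = 2) k
    rcases hk3 with rfl | rfl | rfl <;> simp only [Fin.val_zero, Fin.val_one, Fin.val_two] at * <;>
      omega

theorem ta : TA := fun _ _ _ _ h =>
  { congr := t_congr h
    adjx := t_adjx h
    nbr := t_nbr h
    nbd := t_nbd h
    two := t_two h
    far := fun x y u u' hxy hne => t_far h x y hxy u' _ u rfl hne
    conn := fun P x h0 h1 y => t_conn h P x h0 h1 _ y rfl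
    star := t_star h }

end Pool.Agent.MP_a88b1d_nt.H8
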